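import Pool.Agent.ASE.Stmts5
import Pool.Agent.Helper48_ASO.FIN

/-!
# Squad ASE, row TS2: the part of `F₁₂` with `pL = ⊥` or `qL = ⊥`
-/

open scoped BigOperators

noncomputable section

namespace Pool.Agent.PP.SE.H60

open Pool.Agent.Helper51_AWC Pool.Agent.Helper79_WRA Pool.Agent.PP Pool.Agent.PP.KF
open Pool.Agent.PP.K9 Pool.Agent.PP.K9.H97 Pool.Agent.PP.H75 Pool.Agent.PP.T3 Pool.Agent.PP.SO
open Pool.Agent.PP.SD Pool.Agent.PP.SO.H48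

attribute [local instance] Ideal.Quotient.field

open Classical in
theorem ts2 (hX2C : X2cStmt) (hXEM : XemStmt) (hFVA : FvaStmt) (hMBI : SO.MbiStmt) :
    Ts2Stmt := by
  intro ℓ hℓ M _ hM h2 V₀ G _ _ _ _ E₀ hFq B hSb D hRs n m hPE ρ₁ ρ₂ x₁ x₂ hρ₁ hρ₂ hx₁ hx₂
    F₁₃ Ψ M₁ M₂ K hFE kc kd α β hα hβ
  let _ : Fintype (Set (SO.SS n V₀)) := Fintype.ofFinite _
  obtain ⟨-, hv, -⟩ := hFVA ℓ V₀ hFq.ex n ρ₁ ρ₂ hPE.pw hρ₁ hρ₂ x₁ x₂ hx₁ hx₂ F₁₃ Ψ M₁ M₂ K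
    hFE kc kd
  set F : Set (SO.SS n V₀) → ℚ := F12 ℓ x₁ x₂ Ψ M₁ M₂ K kc kd with hF
  set v : ℚ := (x₁ kc⁻¹ * x₂ kd⁻¹ : ℤ) / (ℓ : ℚ) ^ 2 with hvd
  have hρ1 : ρ₁ 1 = 0 := by
    have h := hρ₁ 1 1
    rw [mul_one] at h
    exact left_eq_add.1 h
  have hρ2 : ρ₂ 1 = 0 := by
    have h := hρ₂ 1 1
    rw [mul_one] at h
    exact left_eq_add.1 h
  have hvv : ∀ τ : Set (SO.SS n V₀), (∀ s ∈ τ, s.2.2.1 = 1 ∧ s.2.2.2 = 1) → F τ = v := by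
    intro τ hτ
    refine hv τ (fun s hs _ _ => hτ s hs) fun s hs => ?_
    rw [(hτ s hs).1, (hτ s hs).2]
    exact ⟨hρ1, hρ2⟩
  set T : ℂ := ∑ᶠ χ ∈ Irr G, cv (α ⊥) χ * cv (β ⊥) χ with hT
  have hterm : ∀ L : Set (SO.SS n V₀), ((mob F L : ℚ) : ℂ) * X12 B m α β L =
      (if L = ∅ then (v : ℂ) * T else 0) +
      if L ∈ {L : Set (SO.SS n V₀) | pL L ≠ ⊥ ∧ qL L ≠ ⊥} then
        ((mob F L : ℚ) : ℂ) * X12 B m α β L else 0 := by
    intro L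
    by_cases hL : L = ∅
    · subst hL
      have hp : pL (∅ : Set (SO.SS n V₀)) = ⊥ :=
        (pL_bot _).2 fun s hs => absurd hs (Set.notMem_empty s)
      rw [if_pos rfl, if_neg (fun h => h.1 hp), (hMBI (SO.SS n V₀) F).2.2.2,
        hvv ∅ fun s hs => absurd hs (Set.notMem_empty s),
        (hXEM ℓ M hM h2 V₀ G E₀ hFq B hSb D hRs).2.1 n m α β hα hβ, add_zero]
    · have hLn : L.Nonempty := Set.nonempty_iff_ne_empty.2 hL
      rw [if_neg hL, zero_add]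
      by_cases hp : pL L = ⊥
      · rw [if_neg (fun h => h.1 hp)]
        by_cases hq : qL L = ⊥
        · have h3 : mob F L = 0 := by
            rw [← (hMBI (SO.SS n V₀) F).2.2.1 L v hLn]
            refine (hMBI (SO.SS n V₀) _).2.1 L fun T hT => ?_
            rw [hvv T fun s hs => ⟨(pL_bot L).1 hp s (hT hs), (qL_bot L).1 hq s (hT hs)⟩, sub_self]
          rw [h3]
          simp
        · rw [(hX2C ℓ M hM h2 V₀ G E₀ hFq B hSb n m hPE L α β).1 (Or.inl ⟨hp, hq⟩), mul_zero]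
      · by_cases hq : qL L = ⊥
        · rw [if_neg (fun h => h.2 hq),
            (hX2C ℓ M hM h2 V₀ G E₀ hFq B hSb n m hPE L α β).1 (Or.inr ⟨hp, hq⟩), mul_zero]
        · rw [if_pos (show L ∈ {L : Set (SO.SS n V₀) | pL L ≠ ⊥ ∧ qL L ≠ ⊥} from ⟨hp, hq⟩)]
  unfold X2N
  rw [fsum, finsum_eq_sum_of_fintype, Finset.sum_congr rfl fun L _ => hterm L,
    Finset.sum_add_distrib, Finset.sum_ite_eq' Finset.univ ∅, if_pos (Finset.mem_univ _), hvd]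
  push_cast
  refine congrArg _ (Finset.sum_congr rfl fun L _ => ?_)
  split_ifs <;> rfl

end Pool.Agent.PP.SE.H60
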