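import Pool.Agent.ASE.Stmts5
import Pool.Agent.Helper48_ASO.FIN

/-!
# Squad ASE, row TS4: the term of `σ` for the elements `fm`
-/

open scoped BigOperators

noncomputable section

namespace Pool.Agent.PP.SE.H60

open Pool.Agent.Helper51_AWC Pool.Agent.Helper79_WRA Pool.Agent.PP Pool.Agent.PP.KF
open Pool.Agent.PP.K9 Pool.Agent.PP.K9.H97 Pool.Agent.PP.H75 Pool.Agent.PP.T3 Pool.Agent.PP.SO
open Pool.Agent.PP.SD Pool.Agent.PP.SO.H48

attribute [local instance] Ideal.Quotient.field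

section gen

variable {V₀ : Type} [CommGroup V₀]

theorem nS_zp (E₀ : Subgroup (MulAut V₀)) (κ : V₀) :
    nS E₀ (Subgroup.zpowers κ) = kE E₀ κ := by
  have h : St E₀ (Subgroup.zpowers κ) = Es E₀ κ := by
    ext σ
    constructor
    · rintro ⟨h1, h2⟩
      exact ⟨h1, h2 κ (Subgroup.mem_zpowers κ)⟩
    · rintro ⟨h1, h2⟩
      refine ⟨h1, ?_⟩
      intro w hw
      obtain ⟨k, rfl⟩ := Subgroup.mem_zpowers_iff.1 hw
      rw [map_zpow, h2]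
  unfold nS kE
  rw [h]

theorem le_eq {ℓ : ℕ} [hℓ : Fact ℓ.Prime] {X Y : Subgroup V₀} (h : X ≤ Y) (hX : X ≠ ⊥)
    (hY : Nat.card Y = ℓ) : X = Y := by
  have hf : Finite Y := by
    apply Nat.finite_of_card_ne_zero
    rw [hY]
    exact hℓ.out.ne_zero
  have hdvd := Subgroup.card_dvd_of_le h
  rw [hY] at hdvd
  rcases (Nat.dvd_prime hℓ.out).1 hdvd with h1 | h1
  · exact absurd (Subgroup.card_eq_one.1 h1) hX
  · exact Subgroup.eq_of_le_of_card_ge h (by rw [hY, h1])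

open Classical in
theorem swp {A X : Type} [Fintype A] [Fintype X] (P : Set A) (π : X → A) (S : X → Prop)
    (g : A → X → ℂ) :
    ∑ᶠ a ∈ P, ∑ᶠ L ∈ {L | π L = a ∧ S L}, g a L =
      ∑ L, if π L ∈ P ∧ S L then g (π L) L else 0 := by
  rw [fsum]
  have h : ∀ a : A, (if a ∈ P then ∑ᶠ L ∈ {L | π L = a ∧ S L}, g a L else 0) =
      ∑ L, if π L = a then (if π L ∈ P ∧ S L then g (π L) L else 0) else 0 := by
    intro a
    by_cases ha : a ∈ P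
    · rw [if_pos ha, fsum]
      refine Finset.sum_congr rfl fun L _ => ?_
      by_cases h1 : π L = a
      · by_cases h2 : S L
        · rw [if_pos (show L ∈ {L | π L = a ∧ S L} from ⟨h1, h2⟩), if_pos h1,
            if_pos ⟨by rw [h1]; exact ha, h2⟩, h1]
        · rw [if_neg (show L ∉ {L | π L = a ∧ S L} from fun h => h2 h.2), if_pos h1,
            if_neg (fun h => h2 h.2)]
      · rw [if_neg (show L ∉ {L | π L = a ∧ S L} from fun h => h1 h.1), if_neg h1]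
    · rw [if_neg ha]
      symm
      refine Finset.sum_eq_zero fun L _ => ?_
      by_cases h1 : π L = a
      · rw [if_pos h1, if_neg (fun h => ha (h1 ▸ h.1))]
      · rw [if_neg h1]
  rw [Finset.sum_congr rfl fun a _ => h a, Finset.sum_comm]
  refine Finset.sum_congr rfl fun L _ => ?_
  rw [Finset.sum_ite_eq, if_pos (Finset.mem_univ _)]

variable {n : ℕ}

theorem aL_le (κ : V₀) (L : Set (SO.SS n V₀)) (h : κ ∈ pL L) : aL κ L ≤ pL L := by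
  unfold aL
  rw [Subgroup.closure_le]
  rintro a ⟨s, hs, rfl⟩
  exact Subgroup.mul_mem _ (Subgroup.pow_mem _ h _) (Subgroup.subset_closure ⟨s, hs, rfl⟩)

theorem pL_le (κ : V₀) (L : Set (SO.SS n V₀)) (h : κ ∈ aL κ L) : pL L ≤ aL κ L := by
  unfold pL
  rw [Subgroup.closure_le]
  rintro p ⟨s, hs, rfl⟩
  have h1 : κ ^ (s.2.1 : ℕ) * s.2.2.1 ∈ aL κ L := Subgroup.subset_closure ⟨s, hs, rfl⟩
  have h2 := Subgroup.mul_mem _ (Subgroup.inv_mem _ (Subgroup.pow_mem _ h (s.2.1 : ℕ))) h1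
  rwa [inv_mul_cancel_left] at h2

open Classical in
/-- the coefficients for `pL` and `aL` are the same -/
theorem ewa (hPRB : PrbStmt) {ℓ : ℕ} [hℓ : Fact ℓ.Prime] [Finite V₀]
    (E₀ : Subgroup (MulAut V₀)) (hFq : Fq ℓ V₀ E₀) (κ : V₀) (L : Set (SO.SS n V₀))
    (hp : pL L ≠ ⊥) (ha : aL κ L ≠ ⊥) :
    (if κ ∈ pL L then (nS E₀ (pL L) : ℂ) else 1) =
      if κ ∈ aL κ L then (nS E₀ (aL κ L) : ℂ) else 1 := by
  have hp7 := (hPRB ℓ V₀ E₀ hFq (pL L)).2.2.2.2.2.2.1 hp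
  have ha7 := (hPRB ℓ V₀ E₀ hFq (aL κ L)).2.2.2.2.2.2.1 ha
  have ht := (hPRB ℓ V₀ E₀ hFq (pL L)).2.2.2.2.2.2.2.1.1
  by_cases h1 : κ ∈ pL L
  · by_cases h2 : κ ∈ aL κ L
    · rw [if_pos h1, if_pos h2, le_antisymm (aL_le κ L h1) (pL_le κ L h2)]
    · rw [if_pos h1, if_neg h2]
      rcases hp7.2 with h3 | h3
      · rw [h3, ht]
        simp
      · exact absurd (by rw [le_eq (aL_le κ L h1) ha h3]; exact h1) h2
  · by_cases h2 : κ ∈ aL κ L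
    · rw [if_neg h1, if_pos h2]
      rcases ha7.2 with h3 | h3
      · rw [h3, ht]
        simp
      · exact absurd (by rw [le_eq (pL_le κ L h2) hp h3]; exact h2) h1
    · rw [if_neg h1, if_neg h2]

theorem zp_mem {ℓ : ℕ} [hℓ : Fact ℓ.Prime] (hV : ∀ v : V₀, v ^ ℓ = 1) (κ : V₀) (k : ℕ)
    (a : Subgroup V₀) (hk : κ ^ k ≠ 1) (h : κ ^ k ∈ a) : κ ∈ a := by
  have h1 : κ ≠ 1 := fun h1 => hk (by rw [h1, one_pow])
  have h2 : Nat.card (Subgroup.zpowers κ) = ℓ := by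
    rw [Nat.card_zpowers, orderOf_eq_prime (hV κ) h1]
  have h3 : Subgroup.zpowers (κ ^ k) = Subgroup.zpowers κ :=
    le_eq (by
      rw [Subgroup.zpowers_le]
      exact Subgroup.pow_mem _ (Subgroup.mem_zpowers κ) _)
      (fun h => hk (Subgroup.zpowers_eq_bot.1 h)) h2
  have h4 : Subgroup.zpowers (κ ^ k) ≤ a := by
    rw [Subgroup.zpowers_le]
    exact h
  rw [h3] at h4
  exact h4 (Subgroup.mem_zpowers κ)

end gen

section blk

variable {V₀ G : Type} [CommGroup V₀] [Group G] [Finite G] {M : Ideal (integralClosure ℤ ℂ)}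
  [M.IsMaximal] {n : ℕ}

omit [M.IsMaximal] in
theorem hx_lin (B : Bk (FF M) V₀ G) (m : ℕ) (W : Subgroup V₀) (z : ℂ) (a b : G → ℂ)
    (L : Set (SO.SS n V₀)) :
    HX B m W (fun g => z * a g - b g) L = z * HX B m W a L - HX B m W b L := by
  let _ : Fintype G := Fintype.ofFinite G
  unfold HX
  rw [finsum_eq_sum_of_fintype, finsum_eq_sum_of_fintype, finsum_eq_sum_of_fintype,
    mul_left_comm z, ← mul_sub]
  congr 1
  rw [Finset.mul_sum, ← Finset.sum_sub_distrib]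
  refine Finset.sum_congr rfl fun g _ => ?_
  ring

omit [M.IsMaximal] in
theorem hx_zero (B : Bk (FF M) V₀ G) (m : ℕ) (W : Subgroup V₀) (b : G → ℂ) (hb : ∀ g, b g = 0)
    (L : Set (SO.SS n V₀)) : HX B m W b L = 0 := by
  let _ : Fintype G := Fintype.ofFinite G
  unfold HX
  rw [finsum_eq_sum_of_fintype, Finset.sum_eq_zero fun g _ => by rw [hb, zero_mul], mul_zero]

open Classical in
/-- the value at `fm` -/
theorem hx_fm (hHXY : HxyStmt) (hPRB : PrbStmt) {ℓ : ℕ} [hℓ : Fact ℓ.Prime] [Finite V₀]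
    (hM : (ℓ : integralClosure ℤ ℂ) ∈ M)
    (E₀ : Subgroup (MulAut V₀)) (hFq : Fq ℓ V₀ E₀) (B : Bk (FF M) V₀ G) (hSb : Sb ℓ M E₀ B)
    (D : Rd V₀ G) (hRs : Rs ℓ E₀ B D) (m : ℕ) (hPE : PE ℓ n m G) (κ : V₀)
    (L : Set (SO.SS n V₀)) (hp : pL L ≠ ⊥) :
    HX B m (pL L) (fm ℓ E₀ B D (pL L) κ) L =
      (if κ ∈ pL L then (nS E₀ (pL L) : ℂ) else 1) * HK B m κ L -
      if pL L ∈ RL ℓ E₀ ∧ κ ∉ pL L then
        HX B m (pL L) (tk B (pr ℓ E₀ (pL L) κ) (D.et (pL L))) L else 0 := by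
  have h1 : fm ℓ E₀ B D (pL L) κ = fun g =>
      (if κ ∈ pL L then (nS E₀ (pL L) : ℂ) else 1) * fc B (pL L) κ g -
        (fun g => if κ ∈ pL L then 0 else tk B (pr ℓ E₀ (pL L) κ) (D.et (pL L)) g) g := rfl
  rw [h1, hx_lin, (hHXY ℓ M hM V₀ G E₀ hFq B hSb n m hPE L κ).1]
  congr 1
  by_cases h2 : κ ∈ pL L
  · rw [if_neg (fun h => h.2 h2)]
    exact hx_zero _ _ _ _ (fun g => if_pos h2) _
  · by_cases h3 : pL L ∈ RL ℓ E₀
    · rw [if_pos ⟨h3, h2⟩]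
      congr 1
      funext g
      exact if_neg h2
    · rw [if_neg (fun h => h3 h.1)]
      have h4 := ((hPRB ℓ V₀ E₀ hFq (pL L)).2.2.2.2.2.2.1 hp).1.resolve_right h3
      have h5 := (hRs.f1 (pL L) hp h4).1
      refine hx_zero _ _ _ _ (fun g => ?_) _
      rw [if_neg h2, h5]
      rfl

omit [M.IsMaximal] in
/-- the sum `LL` at the label of `κ` -/
theorem ll_mnl (E₀ : Subgroup (MulAut V₀)) (B : Bk (FF M) V₀ G) (κ : V₀) :
    LL B (mnl E₀ B κ ⊥) = (kE E₀ κ : ℂ) * L1 B κ := by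
  have h1 : mnl E₀ B κ ⊥ = fun g => (kE E₀ κ : ℂ) * fc B ⊥ κ g := by
    funext g
    unfold mnl
    rw [if_pos bot_le]
  have h2 : ∀ χ : G → ℂ, cv (mnl E₀ B κ ⊥) χ = (kE E₀ κ : ℂ) * cv (fc B ⊥ κ) χ := by
    intro χ
    let _ : Fintype G := Fintype.ofFinite G
    rw [h1]
    unfold cv
    rw [finsum_eq_sum_of_fintype, finsum_eq_sum_of_fintype, ← mul_div_assoc, Finset.mul_sum]
    congr 1
    refine Finset.sum_congr rfl fun g _ => ?_
    ring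
  unfold LL L1
  rw [finsum_mem_congr rfl fun χ _ => h2 χ, finsum_mem_def, finsum_mem_def, ← smul_eq_mul,
    smul_finsum]
  refine finsum_congr fun χ => ?_
  by_cases hχ : χ ∈ IrrE M B.e
  · rw [Set.indicator_of_mem hχ, Set.indicator_of_mem hχ, smul_eq_mul]
  · rw [Set.indicator_of_notMem hχ, Set.indicator_of_notMem hχ, smul_zero]

end blk

open Classical in
/-- Row TS4. -/
theorem ts4 (hHXY : HxyStmt) (hHKF : HkfStmt) (hM12 : SO.M12Stmt) (hPRB : PrbStmt)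
    (hMBI : SO.MbiStmt) : Ts4Stmt := by
  intro ℓ hℓ M _ hM h2 V₀ G _ _ _ _ E₀ hFq B hSd D hRs n m hn hPE F v v' hv hg c d σ hσ
  have hSb : Sb ℓ M E₀ B := hSd.toSb
  let _ : Fintype (Set (SO.SS n V₀)) := Fintype.ofFinite _
  let _ : Fintype (Subgroup V₀) := Fintype.ofFinite _
  have hMB3 := (hMBI (SO.SS n V₀) F).2.2.1
  set F' : Set (SO.SS n V₀) → ℚ := fun T => F T - v with hF'
  have hFmob : ∀ L : Set (SO.SS n V₀), L.Nonempty → mob F L = mob F' L := fun L hL =>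
    (hMB3 L v hL).symm
  have hvv : ∀ τ : Set (SO.SS n V₀), (∀ s ∈ τ, s.2.2.1 = 1 ∧ s.2.2.2 = 1) → F τ = v :=
    fun τ hτ => hv τ (fun s hs _ _ => hτ s hs) hτ
  have hF0 : ∀ L : Set (SO.SS n V₀), pL L = ⊥ → qL L = ⊥ → mob F' L = 0 := by
    intro L h1 h2
    refine (hMBI (SO.SS n V₀) F').2.1 L fun T hT => ?_
    have h3 := hvv T fun s hs => ⟨(pL_bot L).1 h1 s (hT hs), (qL_bot L).1 h2 s (hT hs)⟩
    simp only [hF']
    rw [h3, sub_self]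
  have hRb : ∀ W : Subgroup V₀, W ∈ RL ℓ E₀ → W ≠ ⊥ := by
    rintro W ⟨h1, -⟩ rfl
    rw [Subgroup.card_bot] at h1
    exact hℓ.out.one_lt.ne h1
  set κ : V₀ := c * σ d with hκd
  set S : Set (SO.SS n V₀) → Prop := fun L => ∀ s ∈ L, σ s.2.2.2 = s.2.2.1 with hS
  -- the four parts
  set Pt : Set (SO.SS n V₀) → ℂ := fun L => if pL L ≠ ⊥ ∧ S L ∧ aL κ L ≠ ⊥ then
    ((mob F L * (cS D.U c d σ (pL L) * (ux D.U (aL κ L) κ *
      (N12 E₀ κ L + M12 ℓ E₀ D.fx κ L))) : ℚ) : ℂ) else 0 with hPt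
  set Dt : Set (SO.SS n V₀) → ℂ := fun L =>
    if aL κ L ∈ {a : Subgroup V₀ | a ∈ RL ℓ E₀ ∧ κ ∉ a} ∧ S L then
      ((cS D.U c d σ (pL L) * mob F L : ℚ) : ℂ) * ∑ᶠ w ∈ QL E₀ (LT (TL κ L)),
        wtE ℓ E₀ B D (aL κ L) (pr ℓ E₀ (aL κ L) κ) w.1 w.2 else 0 with hDt
  set Wt : Set (SO.SS n V₀) → ℂ := fun L =>
    if pL L ∈ {a : Subgroup V₀ | a ∈ RL ℓ E₀ ∧ κ ∉ a} ∧ S L then
      ((cS D.U c d σ (pL L) : ℚ) : ℂ) * (((mob F L : ℚ) : ℂ) *
        HX B m (pL L) (tk B (pr ℓ E₀ (pL L) κ) (D.et (pL L))) L) else 0 with hWt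
  set Xt : Set (SO.SS n V₀) → ℂ := fun L => if pL L ≠ ⊥ ∧ S L ∧ aL κ L = ⊥ then
    ((cS D.U c d σ (Subgroup.zpowers κ) : ℚ) : ℂ) * ((kE E₀ κ : ℂ) *
      (((mob F' L : ℚ) : ℂ) * HK B m κ L)) else 0 with hXt
  have hP1 : ∀ L, pL L ≠ ⊥ ∧ S L ∧ aL κ L ≠ ⊥ → Pt L =
      ((mob F L * (cS D.U c d σ (pL L) * (ux D.U (aL κ L) κ *
        (N12 E₀ κ L + M12 ℓ E₀ D.fx κ L))) : ℚ) : ℂ) := fun L h => if_pos h
  have hP0 : ∀ L, ¬ (pL L ≠ ⊥ ∧ S L ∧ aL κ L ≠ ⊥) → Pt L = 0 := fun L h => if_neg h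
  have hD1 : ∀ L, aL κ L ∈ {a : Subgroup V₀ | a ∈ RL ℓ E₀ ∧ κ ∉ a} ∧ S L → Dt L =
      ((cS D.U c d σ (pL L) * mob F L : ℚ) : ℂ) * ∑ᶠ w ∈ QL E₀ (LT (TL κ L)),
        wtE ℓ E₀ B D (aL κ L) (pr ℓ E₀ (aL κ L) κ) w.1 w.2 := fun L h => if_pos h
  have hD0 : ∀ L, ¬ (aL κ L ∈ {a : Subgroup V₀ | a ∈ RL ℓ E₀ ∧ κ ∉ a} ∧ S L) → Dt L = 0 :=
    fun L h => if_neg h
  have hW1 : ∀ L, pL L ∈ {a : Subgroup V₀ | a ∈ RL ℓ E₀ ∧ κ ∉ a} ∧ S L → Wt L =
      ((cS D.U c d σ (pL L) : ℚ) : ℂ) * (((mob F L : ℚ) : ℂ) *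
        HX B m (pL L) (tk B (pr ℓ E₀ (pL L) κ) (D.et (pL L))) L) := fun L h => if_pos h
  have hW0 : ∀ L, ¬ (pL L ∈ {a : Subgroup V₀ | a ∈ RL ℓ E₀ ∧ κ ∉ a} ∧ S L) → Wt L = 0 :=
    fun L h => if_neg h
  have hX1 : ∀ L, pL L ≠ ⊥ ∧ S L ∧ aL κ L = ⊥ → Xt L =
      ((cS D.U c d σ (Subgroup.zpowers κ) : ℚ) : ℂ) * ((kE E₀ κ : ℂ) *
        (((mob F' L : ℚ) : ℂ) * HK B m κ L)) := fun L h => if_pos h
  have hX0 : ∀ L, ¬ (pL L ≠ ⊥ ∧ S L ∧ aL κ L = ⊥) → Xt L = 0 := fun L h => if_neg h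
  have hterm : ∀ L : Set (SO.SS n V₀),
      (if L ∈ {L : Set (SO.SS n V₀) | pL L ≠ ⊥ ∧ ∀ s ∈ L, σ s.2.2.2 = s.2.2.1} then
        ((cS D.U c d σ (pL L) * mob F L : ℚ) : ℂ) *
          HX B m (pL L) (fm ℓ E₀ B D (pL L) κ) L else 0) = Pt L + Dt L - Wt L + Xt L := by
    intro L
    by_cases hSL : S L
    · by_cases hp : pL L = ⊥
      · have hD2 : ¬ (aL κ L ∈ {a : Subgroup V₀ | a ∈ RL ℓ E₀ ∧ κ ∉ a} ∧ S L) := by
          rintro ⟨⟨h3, h4⟩, -⟩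
          apply hRb _ h3
          rw [aL_bot]
          intro s hs
          have h5 := (pL_bot L).1 hp s hs
          rw [h5, mul_one]
          by_contra h6
          refine h4 (zp_mem (ℓ := ℓ) hFq.ex κ _ _ h6 ?_)
          have h7 : κ ^ (s.2.1 : ℕ) * s.2.2.1 ∈ aL κ L := Subgroup.subset_closure ⟨s, hs, rfl⟩
          rwa [h5, mul_one] at h7
        rw [if_neg (fun h => h.1 hp), hP0 L (fun h => h.1 hp), hD0 L hD2,
          hW0 L (fun h => hRb _ h.1.1 hp), hX0 L (fun h => h.1 hp)]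
        simp
      · rw [if_pos (show L ∈ {L : Set (SO.SS n V₀) | pL L ≠ ⊥ ∧ ∀ s ∈ L, σ s.2.2.2 = s.2.2.1}
          from ⟨hp, hSL⟩), hx_fm hHXY hPRB hM E₀ hFq B hSb D hRs m hPE κ L hp]
        have hWv : Wt L = ((cS D.U c d σ (pL L) : ℚ) : ℂ) * (((mob F L : ℚ) : ℂ) *
            if pL L ∈ RL ℓ E₀ ∧ κ ∉ pL L then
              HX B m (pL L) (tk B (pr ℓ E₀ (pL L) κ) (D.et (pL L))) L else 0) := by
          by_cases h3 : pL L ∈ RL ℓ E₀ ∧ κ ∉ pL L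
          · rw [if_pos h3, hW1 L ⟨h3, hSL⟩]
          · rw [if_neg h3, hW0 L (fun h => h3 h.1)]
            simp
        rw [hWv]
        by_cases ha : aL κ L = ⊥
        · have hκ : κ ≠ 1 := by
            intro hκ
            apply hp
            rw [pL_bot]
            intro s hs
            have h4 := (aL_bot _ L).1 ha s hs
            rwa [hκ, one_pow, one_mul] at h4
          have hz : pL L = Subgroup.zpowers κ := by
            refine pL_zp (ℓ := ℓ) hFq.ex hκ L (fun s hs => ?_) hp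
            have h4 := (aL_bot _ L).1 ha s hs
            rw [inv_pow]
            exact (inv_eq_of_mul_eq_one_right h4).symm
          have hLn : L.Nonempty := by
            rw [Set.nonempty_iff_ne_empty]
            rintro rfl
            exact hp ((pL_bot _).2 fun s hs => absurd hs (Set.notMem_empty s))
          rw [hP0 L (fun h => h.2.2 ha), hD0 L (fun h => hRb _ h.1.1 ha),
            hX1 L ⟨hp, hSL, ha⟩, ← hFmob L hLn, hz,
            if_pos (Subgroup.mem_zpowers κ), nS_zp]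
          push_cast
          ring
        · have hH := hHKF ℓ M hM h2 V₀ G E₀ hFq B hSd D hRs n m hPE κ L ha
          rw [ewa hPRB E₀ hFq κ L hp ha, hH]
          have hDv : Dt L = ((cS D.U c d σ (pL L) * mob F L : ℚ) : ℂ) *
              if κ ∉ aL κ L ∧ aL κ L ∈ RL ℓ E₀ then ∑ᶠ w ∈ QL E₀ (LT (TL κ L)),
                wtE ℓ E₀ B D (aL κ L) (pr ℓ E₀ (aL κ L) κ) w.1 w.2 else 0 := by
            by_cases h3 : κ ∉ aL κ L ∧ aL κ L ∈ RL ℓ E₀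
            · rw [if_pos h3, hD1 L ⟨⟨h3.2, h3.1⟩, hSL⟩]
            · rw [if_neg h3, hD0 L (fun h => h3 ⟨h.1.2, h.1.1⟩)]
              simp
          rw [hDv, hP1 L ⟨hp, hSL, ha⟩, hX0 L (fun h => ha h.2.2)]
          push_cast
          ring
    · rw [if_neg (fun h => hSL h.2), hP0 L (fun h => hSL h.2.1), hD0 L (fun h => hSL h.2),
        hW0 L (fun h => hSL h.2), hX0 L (fun h => hSL h.2.1)]
      simp
  -- the four sums
  have hPs : ((P12S ℓ E₀ D.U D.fx c d σ F : ℚ) : ℂ) = ∑ L, Pt L := by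
    unfold P12S
    rw [fsum, Rat.cast_sum]
    refine Finset.sum_congr rfl fun L _ => ?_
    by_cases h3 : pL L ≠ ⊥ ∧ S L ∧ aL κ L ≠ ⊥
    · rw [hP1 L h3, if_pos (show L ∈ {L : Set (SO.SS n V₀) | pL L ≠ ⊥ ∧
        (∀ s ∈ L, σ s.2.2.2 = s.2.2.1) ∧ aL (c * σ d) L ≠ ⊥} from h3)]
    · rw [hP0 L h3, if_neg (show L ∉ {L : Set (SO.SS n V₀) | pL L ≠ ⊥ ∧
        (∀ s ∈ L, σ s.2.2.2 = s.2.2.1) ∧ aL (c * σ d) L ≠ ⊥} from h3), Rat.cast_zero]
  have hDs : (∑ᶠ a ∈ {a : Subgroup V₀ | a ∈ RL ℓ E₀ ∧ κ ∉ a}, DAS ℓ E₀ B D c d σ a F) =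
      ∑ L, Dt L := by
    have h3 := swp {a : Subgroup V₀ | a ∈ RL ℓ E₀ ∧ κ ∉ a} (fun L : Set (SO.SS n V₀) => aL κ L) S
      (fun a L => ((cS D.U c d σ (pL L) * mob F L : ℚ) : ℂ) * ∑ᶠ w ∈ QL E₀ (LT (TL κ L)),
        wtE ℓ E₀ B D a (pr ℓ E₀ a κ) w.1 w.2)
    refine Eq.trans h3 (Finset.sum_congr rfl fun L _ => ?_)
    by_cases h4 : aL κ L ∈ {a : Subgroup V₀ | a ∈ RL ℓ E₀ ∧ κ ∉ a} ∧ S L
    · rw [hD1 L h4, if_pos h4]
    · rw [hD0 L h4, if_neg h4]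
  have hWs : (∑ᶠ a ∈ {a : Subgroup V₀ | a ∈ RL ℓ E₀ ∧ κ ∉ a}, ((cS D.U c d σ a : ℚ) : ℂ) *
      FWS B m σ a F (tk B (pr ℓ E₀ a κ) (D.et a))) = ∑ L, Wt L := by
    have h3 := swp {a : Subgroup V₀ | a ∈ RL ℓ E₀ ∧ κ ∉ a} (fun L : Set (SO.SS n V₀) => pL L) S
      (fun a L => ((cS D.U c d σ a : ℚ) : ℂ) * (((mob F L : ℚ) : ℂ) *
        HX B m a (tk B (pr ℓ E₀ a κ) (D.et a)) L))
    refine Eq.trans (finsum_mem_congr rfl fun a _ => ?_)
      (Eq.trans h3 (Finset.sum_congr rfl fun L _ => ?_))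
    swap
    · by_cases h4 : pL L ∈ {a : Subgroup V₀ | a ∈ RL ℓ E₀ ∧ κ ∉ a} ∧ S L
      · rw [hW1 L h4, if_pos h4]
      · rw [hW0 L h4, if_neg h4]
    unfold FWS
    rw [fsum, fsum, Finset.mul_sum]
    refine Finset.sum_congr rfl fun L _ => ?_
    by_cases h4 : pL L = a ∧ S L
    · rw [if_pos (show L ∈ {L : Set (SO.SS n V₀) | pL L = a ∧ ∀ s ∈ L, σ s.2.2.2 = s.2.2.1}
        from h4), if_pos (show L ∈ {L : Set (SO.SS n V₀) | pL L = a ∧ S L} from h4)]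
    · rw [if_neg (show L ∉ {L : Set (SO.SS n V₀) | pL L = a ∧ ∀ s ∈ L, σ s.2.2.2 = s.2.2.1}
        from h4), if_neg (show L ∉ {L : Set (SO.SS n V₀) | pL L = a ∧ S L} from h4), mul_zero]
  have hXs : ∑ L, Xt L = -(if κ ≠ 1 then ((cS D.U c d σ (Subgroup.zpowers κ) *
      v' κ⁻¹ (σ⁻¹ κ)⁻¹ : ℚ) : ℂ) * LL B (mnl E₀ B κ ⊥) else 0) := by
    by_cases hκ : κ = 1
    · rw [if_neg (fun h => h hκ), neg_zero]
      refine Finset.sum_eq_zero fun L _ => ?_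
      refine hX0 L ?_
      rintro ⟨hp, -, ha⟩
      apply hp
      rw [pL_bot]
      intro s hs
      have h4 := (aL_bot _ L).1 ha s hs
      rwa [hκ, one_pow, one_mul] at h4
    · rw [if_pos hκ, ll_mnl]
      have hval : ∀ L : Set (SO.SS n V₀), Xt L =
          ((cS D.U c d σ (Subgroup.zpowers κ) : ℚ) : ℂ) * ((kE E₀ κ : ℂ) *
            if L ∈ tz κ (σ⁻¹ κ) then (mob F' L : ℂ) * HK B m κ L else 0) := by
        intro L
        by_cases hL : L ∈ tz κ (σ⁻¹ κ)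
        · obtain ⟨h1, h3⟩ := (tz_iff E₀ σ hσ κ L).1 hL
          rw [if_pos hL]
          by_cases hp : pL L = ⊥
          · have hq : qL L = ⊥ := by
              rw [qL_bot]
              intro s hs
              have h4 := h1.2 s hs
              rw [(pL_bot L).1 hp s hs] at h4
              exact (map_eq_one_iff σ σ.injective).1 h4
            rw [hX0 L (fun h => h.1 hp), hF0 L hp hq]
            simp
          · rw [hX1 L ⟨hp, h1.2, h3⟩]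
        · rw [if_neg hL, hX0 L]
          · simp
          · rintro ⟨-, h1, h3⟩
            exact hL ((tz_iff E₀ σ hσ κ L).2 ⟨⟨hσ, h1⟩, h3⟩)
      have hv' := hM12 ℓ M hM V₀ G E₀ hFq.ex B hSb n m κ (σ⁻¹ κ) hκ F'
        (-(v' κ⁻¹ (σ⁻¹ κ)⁻¹)) hn (by
          intro I hI
          have h11 := hg κ⁻¹ (σ⁻¹ κ)⁻¹ I hI
          simp only [hF']
          rw [h11]
          ring)
      rw [Finset.sum_congr rfl fun L _ => hval L, ← Finset.mul_sum, ← Finset.mul_sum]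
      have hv2 : ∑ L, (if L ∈ tz κ (σ⁻¹ κ) then (mob F' L : ℂ) * HK B m κ L else 0)
          = ((-(v' κ⁻¹ (σ⁻¹ κ)⁻¹) : ℚ) : ℂ) * L1 B κ := by
        rw [← hv', fsum]
        rfl
      rw [hv2]
      push_cast
      ring
  have hT : T0S ℓ E₀ B D m c d σ F = ∑ L, (Pt L + Dt L - Wt L + Xt L) := by
    unfold T0S
    rw [fsum]
    refine Finset.sum_congr rfl fun L _ => Eq.trans ?_ (hterm L)
    by_cases h4 : L ∈ {L : Set (SO.SS n V₀) | pL L ≠ ⊥ ∧ ∀ s ∈ L, σ s.2.2.2 = s.2.2.1}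
    · rw [if_pos h4, if_pos h4]
    · rw [if_neg h4, if_neg h4]
  rw [hT, Finset.sum_add_distrib, Finset.sum_sub_distrib, Finset.sum_add_distrib, hXs, ← hPs,
    ← hDs, ← hWs]
  ring

end Pool.Agent.PP.SE.H60
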