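import Pool.Agent.ASE.Stmts8

/-!
# Squad ASE, row FXE: equal numbers of modular characters imply equal numbers of fixed characters
-/

open scoped BigOperators

noncomputable section

namespace Pool.Agent.PP.SE.H60

open Pool.Agent.Helper51_AWC Pool.Agent.Helper79_WRA Pool.Agent.PP Pool.Agent.PP.KF
open Pool.Agent.PP.K9 Pool.Agent.PP.K9.H97 Pool.Agent.PP.H75 Pool.Agent.PP.T3 Pool.Agent.PP.SO
open Pool.Agent.PP.SD

attribute [local instance] Ideal.Quotient.field

theorem fxe (fxl : FxlStmt) : FxeStmt := by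
  intro ℓ _ M _ hM h2 V₀ G G' _ _ _ _ _ _ E₀ hFq B B' hB hB' hLam W hW g hg hgW
  have h := fxl ℓ M hM h2 V₀ G G' E₀ hFq B B' hB hB' (fun E' hE' => (hLam E' hE').symm) W hW g hg hgW
  exact h.symm

end Pool.Agent.PP.SE.H60
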