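import Pool.Agent.ASE.Stmts8
import Pool.Agent.ASD.Stmts3

/-!
# Squad ASE, row S2F: the theorem for block idempotents with elementary abelian defect groups
-/

open scoped BigOperators

noncomputable section

namespace Pool.Agent.PP.SE.H60

open Pool.Agent.Helper51_AWC Pool.Agent.Helper79_WRA Pool.Agent.PP Pool.Agent.PP.KF
open Pool.Agent.PP.K9 Pool.Agent.PP.K9.H97 Pool.Agent.PP.H75 Pool.Agent.PP.T3 Pool.Agent.PP.SO
open Pool.Agent.PP.SD

attribute [local instance] Ideal.Quotient.field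

theorem s2f (yye : YyeStmt) (esd : SD.EsdStmt) (syd : SD.SydStmt) : S2fStmt := by
  intro ℓ _ M _ hM h5 G _ _ e V γ hL hex hcd
  obtain ⟨V₀, _, _, E₀, i, hFq, hinj, hran, hact, hsur, _, _⟩ := esd ℓ M hM G e V γ hL hex hcd
  subst hran
  obtain ⟨B, hBe, -, -, hSd⟩ := syd ℓ M hM V₀ G E₀ hFq e γ i hinj hL hact hsur
  have h := yye ℓ M hM h5 V₀ G E₀ hFq B hSd
  rwa [hBe] at h

end Pool.Agent.PP.SE.H60
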